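import Pool.Agent.TH646.CA.Main

/-!
# Odd congruent numbers with few and large prime factors, in each class modulo `8`, in short intervals

For `3/4 < θ ≤ 1` there is `R` such that for all large `X` and `j = 1, 3, 5, 7` the interval `[X, X + X ^ θ]` contains
at least `X ^ (θ - 1/2) / (log X) ^ 8` squarefree congruent numbers `n ≡ j` modulo `8` with at most `R` prime factors,
all of them larger than `X ^ (1 / R)`. So on `[X, 2 X]` there are at least `X ^ (1/2) / (log X) ^ 8` such numbers.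

By Tunnell's theorem all these `n` satisfy `2 |A_n| = |B_n|` and `n` is congruent, so they are instances of the
implication of Q1. In the classes `1` and `3` the sign of the elliptic curve is even and Heegner points give nothing;
in the classes `5` and `7` all primes are congruent numbers.

The numbers are `a b (a ^ 2 - 36 ^ 2 b ^ 2)`; see the library files `Pool.Agent.TH646.CA`.
-/

set_option autoImplicit false

namespace Pool.Agent.Results.MP_05dcdc_nt.AlmostPrimeCount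

/-- `n` is the area of a right triangle with rational sides. -/
def IsCongruent (n : ℕ) : Prop :=
  ∃ a b c : ℚ, 0 < a ∧ 0 < b ∧ 0 < c ∧ a ^ 2 + b ^ 2 = c ^ 2 ∧ (n : ℚ) = a * b / 2

/-- **Many squarefree congruent numbers with few and large prime factors in short intervals, in each odd class modulo
`8`.** -/
theorem result (θ : ℝ) (hθ : 3 / 4 < θ) (hθ1 : θ ≤ 1) :
    ∃ R : ℕ, 0 < R ∧ ∃ X₀ : ℝ, ∀ X : ℝ, X₀ ≤ X → ∀ j : ℕ, j = 1 ∨ j = 3 ∨ j = 5 ∨ j = 7 →
      X ^ (θ - 1 / 2) / Real.log X ^ 8 ≤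
        (Nat.card {n : ℕ // X ≤ n ∧ (n : ℝ) ≤ X + X ^ θ ∧ n % 8 = j ∧ Squarefree n ∧
          IsCongruent n ∧ n.primeFactors.card ≤ R ∧
          ∀ p : ℕ, p.Prime → p ∣ n → X ^ (1 / (R : ℝ)) < p} : ℝ) := by
  obtain ⟨R, hR, X₀, h⟩ := Pool.Agent.TH646.CA.main θ hθ hθ1
  refine ⟨R, hR, X₀, fun X hX j hj => ?_⟩
  have hfam : ∃ κ lam s e : ℤ, Pool.Agent.TH646.CA.Fam κ lam s e (j : ℤ) := by
    rcases hj with rfl | rfl | rfl | rfl
    · exact ⟨1, 36, 6, 17, by unfold Pool.Agent.TH646.CA.Fam; decide⟩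
    · exact ⟨1, 36, 6, 43, by unfold Pool.Agent.TH646.CA.Fam; decide⟩
    · exact ⟨1, 36, 6, 13, by unfold Pool.Agent.TH646.CA.Fam; decide⟩
    · exact ⟨1, 36, 6, 7, by unfold Pool.Agent.TH646.CA.Fam; decide⟩
  obtain ⟨κ, lam, s, e, hf⟩ := hfam
  have h1 := h X hX κ lam s e j hf
  refine h1.trans (le_of_eq ?_)
  have e : {n : ℕ | X ≤ n ∧ (n : ℝ) ≤ X + X ^ θ ∧ (n : ℤ) % 8 = (j : ℤ) ∧
      Squarefree n ∧ Pool.Agent.TH646.CA.Cong n ∧ n.primeFactors.card ≤ R ∧
      ∀ p : ℕ, p.Prime → p ∣ n → p = 2 ∨ X ^ (1 / (R : ℝ)) < p} =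
      {n : ℕ | X ≤ n ∧ (n : ℝ) ≤ X + X ^ θ ∧ n % 8 = j ∧ Squarefree n ∧
          IsCongruent n ∧ n.primeFactors.card ≤ R ∧
          ∀ p : ℕ, p.Prime → p ∣ n → X ^ (1 / (R : ℝ)) < p} := by
    ext n
    have hc : Pool.Agent.TH646.CA.Cong n ↔ IsCongruent n := by
      constructor
      · rintro ⟨a, b, c, ha, hb, hc, h1, h2⟩
        exact ⟨a, b, c, ha, hb, hc, h1, h2.symm⟩
      · rintro ⟨a, b, c, ha, hb, hc, h1, h2⟩
        exact ⟨a, b, c, ha, hb, hc, h1, h2.symm⟩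
    have h8 : ((n : ℤ) % 8 = (j : ℤ)) ↔ n % 8 = j := by omega
    simp only [Set.mem_setOf_eq, hc, h8]
    constructor
    · rintro ⟨a1, a2, a3, a4, a5, a6, a7⟩
      refine ⟨a1, a2, a3, a4, a5, a6, fun p hp hpn => ?_⟩
      rcases a7 p hp hpn with rfl | h9
      · exfalso
        omega
      · exact h9
    · rintro ⟨a1, a2, a3, a4, a5, a6, a7⟩
      exact ⟨a1, a2, a3, a4, a5, a6, fun p hp hpn => Or.inr (a7 p hp hpn)⟩
  rw [e]
  rfl

end Pool.Agent.Results.MP_05dcdc_nt.AlmostPrimeCount
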