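import Pool.Agent.X58.CN.Main

/-!
# Patterns in the parameters of squarefree congruent numbers, for several classes modulo `8` at once

The numbers `num b v = 3 b v (12 b v - 1) (12 b v + 1)` are congruent numbers (the legs `12 b v` and
`((12 b v) ^ 2 - 1) / 2`). Let `b` be squarefree, prime to `3`, and `t` a class modulo `8` (see `Admissible`).
(1) For `θ > 1/2` and large `r` there are at least `δ X / (log X) ^ 3` parameters `v` in `(A, A + X]`,
`A ^ θ ≤ X ≤ A`, such that `num b v` is squarefree, `≡ t` modulo `8`, with at most `r` prime factors, those not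
dividing `3 b` larger than `v ^ (1 / r)`.
(2) These numbers are congruent; for `t = 5, 7` the sets `A_n` and `B_n` of the problem are empty.
(3) All but at most `ε X / (log X) ^ 3` elements of an arbitrary set `S` of such parameters in an interval `(A, A + X]`,
`A ≥ X`, are centres of patterns in `S` of the expected number, with differences up to `D`, for every
`D ≥ (log X) ^ B`.
(4) `M` such sets, for `M` types `(b_j, t_j)`, in `M` arbitrary intervals of length `X`, with at least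
`δ X / (log X) ^ 3` elements each have common difference vectors: for a positive proportion of the vectors
`d ∈ {1, ..., D} ^ m` the `j`-th set contains for every `P ⊆ {0, ..., k - 1} ^ m` with `0 ∈ P` the number of patterns
`n + f · d`, `f ∈ P`, predicted for `b_j`, for all `j` at once.

The proof uses the theorems of `Pool.Agent.X26` and `Pool.Agent.X69` (in this run) on patterns in dense sets of
integers without small prime factors and the sieve of the starting library (`Pool.Agent.TH977.PW`).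
-/

set_option autoImplicit false

namespace Pool.Agent.Results.MP_05dcdc_nt.CommonPatterns

open Filter

/-- `n` is the area of a right triangle with rational sides. -/
def IsCongruent (n : ℕ) : Prop :=
  ∃ x y z : ℚ, 0 < x ∧ 0 < y ∧ x ^ 2 + y ^ 2 = z ^ 2 ∧ (n : ℚ) = x * y / 2

/-- The set `A_n` of the problem. -/
def A (n : ℕ) : Set (ℤ × ℤ × ℤ) := {v | (n : ℤ) = 2 * v.1 ^ 2 + v.2.1 ^ 2 + 32 * v.2.2 ^ 2}

/-- The set `B_n` of the problem. -/
def B (n : ℕ) : Set (ℤ × ℤ × ℤ) := {v | (n : ℤ) = 2 * v.1 ^ 2 + v.2.1 ^ 2 + 8 * v.2.2 ^ 2}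

/-- `b` is odd, squarefree and prime to `3`, and `t` is `1`, `3`, `5` or `7`. -/
def Admissible (b t : ℕ) : Prop := Squarefree b ∧ Odd b ∧ ¬ 3 ∣ b ∧ (t = 1 ∨ t = 3 ∨ t = 5 ∨ t = 7)

/-- The number `3 b v (12 b v - 1) (12 b v + 1)`. -/
def num (b v : ℕ) : ℕ := 3 * b * v * (12 * b * v - 1) * (12 * b * v + 1)

/-- `q` divides `v`, `12 b v - 1` or `12 b v + 1`. -/
def Divides (b q v : ℕ) : Prop := q ∣ v ∨ q ∣ 12 * b * v - 1 ∨ q ∣ 12 * b * v + 1

/-- The parameters `v` such that `num b v` is squarefree, is `t` modulo `8`, has at most `r` prime factors, and has no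
prime factors up to `v ^ (1 / r)` except for those of `3 b`. -/
def Good (b t r : ℕ) : Set ℕ :=
  {v | num b v % 8 = t ∧ Squarefree (num b v) ∧ ArithmeticFunction.cardFactors (num b v) ≤ r ∧
    ∀ q : ℕ, q.Prime → Divides b q v → (v : ℝ) ^ (1 / (r : ℝ)) < q}

/-- The integer `f · d = f 0 * d 0 + f 1 * d 1 + ...`. -/
def dot {m : ℕ} (f d : Fin m → ℕ) : ℕ := ∑ i, f i * d i

/-- `n` is a centre in `S` for `d`: all the integers `n + f · d` with `|f i| ≤ K` for all `i` are in `S`. -/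
def Centre (K : ℕ) (S : Set ℕ) {m : ℕ} (n : ℕ) (d : Fin m → ℕ) : Prop :=
  ∀ f : Fin m → ℤ, (∀ i, |f i| ≤ K) → ∃ s ∈ S, (s : ℤ) = n + ∑ i, f i * (d i : ℤ)

/-- The number of the vectors `d ∈ {1, ..., D} ^ m` for which `n` is a centre in `S`. -/
noncomputable def patterns (K m D : ℕ) (S : Set ℕ) (n : ℕ) : ℕ :=
  {d : Fin m → ℕ | (∀ i, 1 ≤ d i ∧ d i ≤ D) ∧ Centre K S n d}.ncard

/-- The number of the residues `u` modulo `q` such that `q` divides `v`, `12 b v - 1` or `12 b v + 1` for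
`v = u + f · d` with some `f ∈ P`. -/
noncomputable def omega (b : ℕ) {m : ℕ} (d : Fin m → ℕ) (P : Finset (Fin m → ℕ)) (q : ℕ) : ℕ :=
  {u : ℕ | 1 ≤ u ∧ u ≤ q ∧ ∃ f ∈ P, Divides b q (u + dot f d)}.ncard

/-- The product of the `1 - w q / q` over the primes `q ≤ X`. -/
noncomputable def product (w : ℕ → ℕ) (X : ℕ) : ℝ :=
  ∏ q ∈ (Finset.Icc 1 X).filter Nat.Prime, (1 - (w q : ℝ) / q)

/-- The number of the `n ∈ S` such that all the `n + f · d`, `f ∈ P`, are in `S`. -/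
noncomputable def count (S : Set ℕ) {m : ℕ} (d : Fin m → ℕ) (P : Finset (Fin m → ℕ)) : ℕ :=
  {n : ℕ | n ∈ S ∧ ∀ f ∈ P, n + dot f d ∈ S}.ncard

/-- For all `P ⊆ {0, ..., k - 1} ^ m` with `0 ∈ P`: the integers `f · d`, `f ∈ P`, are different, and for all `j`
the conditions modulo the primes are solvable and the set `S j` contains at least
`c X ∏ (1 - omega (b j) d P q / q)` of the patterns `n + f · d`, `f ∈ P`. -/
def Common {M m : ℕ} (b : Fin M → ℕ) (c : ℝ) (k X : ℕ) (S : Fin M → Set ℕ) (d : Fin m → ℕ) : Prop :=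
  ∀ P : Finset (Fin m → ℕ), (∀ f ∈ P, ∀ i, f i < k) → (fun _ => 0) ∈ P →
    Set.InjOn (fun f => dot f d) (P : Set (Fin m → ℕ)) ∧ ∀ j, (∀ q : ℕ, q.Prime → omega (b j) d P q < q) ∧
      c * (X * product (omega (b j) d P) X) ≤ (count (S j) d P : ℝ)

lemma no_rep (n : ℕ) (h : n % 8 = 5 ∨ n % 8 = 7) (x y z : ℤ) (c : ℤ) (hc : 8 ∣ c) :
    (n : ℤ) ≠ 2 * x ^ 2 + y ^ 2 + c * z ^ 2 := by
  intro he
  obtain ⟨d, rfl⟩ := hc
  have h1 : (n : ℤ) % 8 = 5 ∨ (n : ℤ) % 8 = 7 := by omega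
  have h2 : (2 * x ^ 2 + y ^ 2 + 8 * d * z ^ 2) % 8 = (2 * x ^ 2 + y ^ 2) % 8 := by
    have : 2 * x ^ 2 + y ^ 2 + 8 * d * z ^ 2 = 2 * x ^ 2 + y ^ 2 + 8 * (d * z ^ 2) := by ring
    rw [this, Int.add_mul_emod_self_left]
  rw [he, h2] at h1
  have hx : x ^ 2 % 4 = 0 ∨ x ^ 2 % 4 = 1 := by
    rcases Int.emod_two_eq_zero_or_one x with hx | hx
    · obtain ⟨k, hk⟩ : ∃ k, x = 2 * k := ⟨x / 2, by omega⟩
      left
      have : x ^ 2 = 4 * k ^ 2 := by rw [hk]; ring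
      omega
    · obtain ⟨k, hk⟩ : ∃ k, x = 2 * k + 1 := ⟨x / 2, by omega⟩
      right
      have : x ^ 2 = 4 * (k ^ 2 + k) + 1 := by rw [hk]; ring
      omega
  have hy : y ^ 2 % 8 = 0 ∨ y ^ 2 % 8 = 1 ∨ y ^ 2 % 8 = 4 := by
    have h8 : y % 8 = 0 ∨ y % 8 = 1 ∨ y % 8 = 2 ∨ y % 8 = 3 ∨ y % 8 = 4 ∨ y % 8 = 5 ∨ y % 8 = 6 ∨ y % 8 = 7 := by
      omega
    rcases h8 with h | h | h | h | h | h | h | h <;> rw [pow_two, Int.mul_emod, h] <;> norm_num
  omega


/-- **Patterns in the parameters of squarefree congruent numbers.** -/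
theorem result :
    (∀ b t : ℕ, Admissible b t → ∀ θ : ℝ, 1 / 2 < θ → θ ≤ 1 → ∃ r₀ : ℕ, 2 ≤ r₀ ∧ ∀ r : ℕ, r₀ ≤ r →
      ∃ δ : ℝ, 0 < δ ∧ ∀ᶠ X : ℕ in atTop, ∀ A : ℕ, X ≤ A → (A : ℝ) ^ θ ≤ X →
      δ * X / Real.log X ^ 3 ≤ ((Good b t r ∩ Set.Ioc A (A + X)).ncard : ℝ)) ∧
    (∀ b t r v : ℕ, Admissible b t → v ∈ Good b t r → 1 ≤ v ∧ IsCongruent (num b v) ∧
      Odd (num b v) ∧ (t = 5 ∨ t = 7 → A (num b v) = ∅ ∧ B (num b v) = ∅)) ∧
    (∀ b t : ℕ, Admissible b t → ∀ (r m K : ℕ) (ε : ℝ), 1 ≤ r → 1 ≤ K → 0 < ε →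
      ∃ c : ℝ, 0 < c ∧ ∃ B : ℕ, ∀ᶠ X : ℕ in atTop, ∀ A D : ℕ, X ≤ A → Real.log X ^ B ≤ D → D ≤ X →
        ∀ S : Set ℕ, S ⊆ Good b t r ∩ Set.Ioc A (A + X) →
        ({n : ℕ | n ∈ S ∧ (patterns K m D S n : ℝ) <
          c * ((D : ℝ) ^ m / Real.log X ^ (3 * ((2 * K + 1) ^ m - 1)))}.ncard : ℝ) ≤ ε * X / Real.log X ^ 3) ∧
    (∀ (M : ℕ) (b t : Fin M → ℕ), (∀ j, Admissible (b j) (t j)) → ∀ (r m k : ℕ) (δ : ℝ), 1 ≤ r → 0 < δ →
      ∃ c : ℝ, 0 < c ∧ ∃ B : ℕ, ∀ᶠ X : ℕ in atTop, ∀ D : ℕ, Real.log X ^ B ≤ D → D ≤ X →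
        ∀ (A : Fin M → ℕ) (S : Fin M → Set ℕ), (∀ j, X ≤ A j) →
        (∀ j, S j ⊆ Good (b j) (t j) r ∩ Set.Ioc (A j) (A j + X)) →
        (∀ j, δ * X / Real.log X ^ 3 ≤ ((S j).ncard : ℝ)) →
        c * (D : ℝ) ^ m ≤ ({d : Fin m → ℕ | (∀ i, 1 ≤ d i ∧ d i ≤ D) ∧ Common b c k X S d}.ncard : ℝ)) := by
  have hpos : ∀ b t : ℕ, Admissible b t → 1 ≤ b := fun b t h => Nat.one_le_iff_ne_zero.2 h.1.ne_zero
  refine ⟨fun b t h θ hθ hθ1 => ?_, fun b t r v h hv => ?_, fun b t h r m K ε hr hK hε => ?_,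
    fun M b t h r m k δ hr hδ => ?_⟩
  · refine Pool.Agent.X58.CN.lowA b t ?_ θ hθ hθ1
    refine ⟨h.1, h.2.2.1, ?_, ?_, ?_⟩
    · rcases h.2.2.2 with h | h | h | h <;> omega
    · rcases h.2.2.2 with h | h | h | h <;> omega
    · have h2 := Nat.odd_iff.1 h.2.1
      rcases h.2.2.2 with h | h | h | h <;> omega
  · have hb := hpos b t h
    have hv1 : 1 ≤ v := by
      rcases Nat.eq_zero_or_pos v with h0 | h0
      · exfalso
        have h1 := hv.2.1.ne_zero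
        apply h1
        rw [h0]
        unfold num
        simp
      · exact h0
    have ht : num b v % 8 = t := hv.1
    refine ⟨hv1, Pool.Agent.X58.CN.cong b v hb hv1, ?_, fun h57 => ⟨?_, ?_⟩⟩
    · rw [Nat.odd_iff]
      rcases h.2.2.2 with h | h | h | h <;> omega
    · apply Set.eq_empty_of_forall_notMem
      rintro ⟨x, y, z⟩ hw
      exact no_rep _ (by omega) x y z 32 (by norm_num) hw
    · apply Set.eq_empty_of_forall_notMem
      rintro ⟨x, y, z⟩ hw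
      exact no_rep _ (by omega) x y z 8 (by norm_num) hw
  · exact Pool.Agent.X58.CN.typ b t r (hpos b t h) hr m K hK ε hε
  · exact Pool.Agent.X58.CN.common M b t (fun j => hpos _ _ (h j)) r hr m k δ hδ

end Pool.Agent.Results.MP_05dcdc_nt.CommonPatterns
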