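import Pool.Agent.X220.CN.Fin

/-!
# Odd squarefree congruent numbers with few prime factors and prescribed fractional parts, in each class modulo 8

Let `Q_1, …, Q_s` be real polynomials of degree at most `d ≥ 1` whose vector of the coefficients of `x ^ d` is of finite
type: the distance of `h_1 α_1 + … + h_s α_s` to the nearest integer is at least `c₀ / |h| ^ τ` for all nonzero integral
vectors `h` (for example `α_1, …, α_s` are algebraic and `1, α_1, …, α_s` are linearly independent over the rational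
numbers; for `s = d = 1` this is the condition that the numbers `α n` are considered, `α` of finite type).

Let `j = 1, 3, 5, 7`. If `M + H ≤ H ^ (2 - η)` and `H` is large, there are many squarefree congruent numbers `n ≡ j` modulo
`8` in the short interval `(663552 M ^ 3, 663552 (M + H + 1) ^ 3]` with at most `r` prime factors, all greater than `H ^ δ`, for
which all the fractional parts of `Q_i(n) - u_i` are less than `ρ_i`, where the `ρ_i` may be as small as `H ^ (-δ)`: at least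
`c H ρ_1 ⋯ ρ_s / (log H) ^ 3`. For `j = 5, 7` these `n` also satisfy the hypothesis `2 |A_n| = |B_n|` of Q1 (for `j = 1, 3`
this is Tunnell's theorem, which is not formalised here).

The numbers are `n = t (36 t - 1) (36 t + 1)` for `t` in a class modulo `8`, the areas of the triangles with the legs
`(1296 t ^ 2 - 1) / 6`, `12 t`. The sieve for three linear forms (starting files) is combined with Weyl's inequality for the
polynomials `Q_i(n(t))` of `t`; the `t` for which a form has a large square divisor are counted separately.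
-/

set_option autoImplicit false

namespace Pool.Agent.Results.MP_05dcdc_nt.FractionalParts

open Finset Polynomial

/-- the vector `α` is of finite type, with the constants `c₀` and `τ` -/
def FiniteType {s : ℕ} (c₀ : ℝ) (τ : ℕ) (α : Fin s → ℝ) : Prop :=
  ∀ h : Fin s → ℤ, h ≠ 0 → ∀ a : ℤ, c₀ ≤ (∑ i, |(h i : ℝ)|) ^ τ * |(∑ i, h i * α i) - a|

/-- all the fractional parts of `Q_i(n) - u_i` are less than `ρ_i` -/
def InBox {s : ℕ} (Q : Fin s → ℝ[X]) (u ρ : Fin s → ℝ) (n : ℕ) : Prop :=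
  ∀ i, Int.fract ((Q i).eval (n : ℝ) - u i) < ρ i

/-- `n` is the area of a right triangle with rational sides. -/
def IsCongruent (n : ℕ) : Prop :=
  ∃ a b c : ℚ, 0 < a ∧ 0 < b ∧ 0 < c ∧ a ^ 2 + b ^ 2 = c ^ 2 ∧ (n : ℚ) = a * b / 2

/-- the set `A_n` of the problem -/
def A (n : ℕ) : Set (ℤ × ℤ × ℤ) := {p | (n : ℤ) = 2 * p.1 ^ 2 + p.2.1 ^ 2 + 32 * p.2.2 ^ 2}

/-- the set `B_n` of the problem -/
def B (n : ℕ) : Set (ℤ × ℤ × ℤ) := {p | (n : ℤ) = 2 * p.1 ^ 2 + p.2.1 ^ 2 + 8 * p.2.2 ^ 2}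

/-- the number of the squarefree congruent numbers `n ≡ j` modulo `8` in `(X, Y]` which have at most `r` prime factors (with
multiplicity), all larger than `w`, and which have the property `R`; for `j = 5` and `j = 7` also `2 |A_n| = |B_n|` is
required -/
noncomputable def count (j r : ℕ) (w : ℝ) (X Y : ℕ) (R : ℕ → Prop) : ℕ :=
  Set.ncard {n : ℕ | X < n ∧ n ≤ Y ∧ n % 8 = j ∧ Squarefree n ∧ IsCongruent n ∧
    (j = 5 ∨ j = 7 → 2 * (A n).ncard = (B n).ncard) ∧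
    n.primeFactorsList.length ≤ r ∧ (∀ q : ℕ, q.Prime → q ∣ n → w < q) ∧ R n}

lemma congruent_NN {B e t₀ : ℕ} (hp : Pool.Agent.X220.CN.Par B e t₀) (m : ℕ) :
    IsCongruent (Pool.Agent.X220.CN.NN B e t₀ m) := by
  obtain ⟨S, w, hS, hw, h, -⟩ := Pool.Agent.X220.CN.triangle hp m
  set n := Pool.Agent.X220.CN.NN B e t₀ m
  have hz : (w : ℚ) ^ 2 * n + S = S ^ 3 := by exact_mod_cast h
  have hw0 : (0 : ℚ) < w := by exact_mod_cast hw
  have hS0 : (18 : ℚ) ≤ S := by exact_mod_cast hS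
  refine ⟨((S : ℚ) ^ 2 - 1) / w, 2 * S / w, ((S : ℚ) ^ 2 + 1) / w, ?_, by positivity, by positivity, ?_, ?_⟩
  · have : (0 : ℚ) < (S : ℚ) ^ 2 - 1 := by nlinarith
    positivity
  · field_simp
    ring
  · rw [div_mul_div_comm, div_div, eq_div_iff (by positivity)]
    linear_combination 2 * hz

lemma empty_of {n : ℕ} (h : n % 8 = 5 ∨ n % 8 = 7) : 2 * (A n).ncard = (B n).ncard := by
  have key : ∀ x y z : ℤ, ∀ c : ℤ, 8 ∣ c → ¬ (n : ℤ) = 2 * x ^ 2 + y ^ 2 + c * z ^ 2 := by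
    intro x y z c hc hxy
    obtain ⟨c', rfl⟩ := hc
    have h1 : (2 * x ^ 2 + y ^ 2 + 8 * c' * z ^ 2) % 8 = (2 * (x % 8) ^ 2 + (y % 8) ^ 2) % 8 := by
      have hx : x ^ 2 % 8 = (x % 8) ^ 2 % 8 := by rw [pow_two, pow_two, Int.mul_emod]
      have hy : y ^ 2 % 8 = (y % 8) ^ 2 % 8 := by rw [pow_two, pow_two, Int.mul_emod]
      have hz : 8 * c' * z ^ 2 = 8 * (c' * z ^ 2) := by ring
      omega
    have h2 : (n : ℤ) % 8 = (2 * (x % 8) ^ 2 + (y % 8) ^ 2) % 8 := by rw [hxy, h1]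
    have hx0 : 0 ≤ x % 8 := Int.emod_nonneg _ (by norm_num)
    have hx8 : x % 8 < 8 := Int.emod_lt_of_pos _ (by norm_num)
    have hy0 : 0 ≤ y % 8 := Int.emod_nonneg _ (by norm_num)
    have hy8 : y % 8 < 8 := Int.emod_lt_of_pos _ (by norm_num)
    generalize x % 8 = a at *
    generalize y % 8 = b at *
    interval_cases a <;> interval_cases b <;> omega
  have hA : A n = ∅ := by
    ext ⟨x, y, z⟩
    simp only [A, Set.mem_ofPred_eq, Set.mem_empty_iff_false, iff_false]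
    exact key x y z 32 ⟨4, by norm_num⟩
  have hB : B n = ∅ := by
    ext ⟨x, y, z⟩
    simp only [B, Set.mem_ofPred_eq, Set.mem_empty_iff_false, iff_false]
    exact key x y z 8 ⟨1, by norm_num⟩
  rw [hA, hB, Set.ncard_empty]

theorem result :
    (∀ (s d τ : ℕ) (c₀ η : ℝ), 1 ≤ d → 0 < c₀ → 0 < η → ∀ j : ℕ, j = 1 ∨ j = 3 ∨ j = 5 ∨ j = 7 →
      ∃ (r : ℕ) (δ c : ℝ) (H₀ : ℕ), 0 < δ ∧ 0 < c ∧ ∀ H : ℕ, H₀ ≤ H → ∀ Q : Fin s → ℝ[X],
        (∀ i, (Q i).natDegree ≤ d) → FiniteType c₀ τ (fun i => (Q i).coeff d) →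
        ∀ u ρ : Fin s → ℝ, (∀ i, (H : ℝ) ^ (-δ) ≤ ρ i ∧ ρ i ≤ 1) → ∀ M : ℕ, (M : ℝ) + H ≤ (H : ℝ) ^ (2 - η) →
        c * (H * ∏ i, ρ i) / Real.log H ^ 3 ≤
          count j r ((H : ℝ) ^ δ) (663552 * M ^ 3) (663552 * (M + H + 1) ^ 3) (InBox Q u ρ)) ∧
    -- algebraic numbers
    (∀ (s : ℕ) (α : Fin s → ℝ), (∀ i, IsAlgebraic ℚ (α i)) →
      (∀ (h : Fin s → ℤ) (a : ℤ), ∑ i, (h i : ℝ) * α i = a → h = 0) →
      ∃ (c₀ : ℝ) (τ : ℕ), 0 < c₀ ∧ FiniteType c₀ τ α) := by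
  refine ⟨?_, fun s α hα hind => Pool.Agent.X220.FP.liouville_vec s α hα hind⟩
  intro s d τ c₀ η hd hc₀ hη j hj
  obtain ⟨t₀, hp, hmod⟩ : ∃ t₀ : ℕ, Pool.Agent.X220.CN.Par 36 1 t₀ ∧
      ∀ n, (n + 1 * t₀) % 8 = 0 → n % 8 = j := by
    rcases hj with rfl | rfl | rfl | rfl
    · exact ⟨7, ⟨Or.inl ⟨rfl, rfl⟩, by norm_num⟩, fun n h => by omega⟩
    · exact ⟨5, ⟨Or.inl ⟨rfl, rfl⟩, by norm_num⟩, fun n h => by omega⟩
    · exact ⟨3, ⟨Or.inl ⟨rfl, rfl⟩, by norm_num⟩, fun n h => by omega⟩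
    · exact ⟨1, ⟨Or.inl ⟨rfl, rfl⟩, by norm_num⟩, fun n h => by omega⟩
  obtain ⟨r, δ, c, H₀, hδ, hc, h⟩ := Pool.Agent.X220.CN.count hp s d τ hd c₀ hc₀ η hη
  refine ⟨r, δ, c, H₀, hδ, hc, ?_⟩
  intro H hH Q hQ hFT u ρ hρ M hM
  refine (h H hH Q hQ hFT u ρ hρ M hM).trans ?_
  have hK : 512 * 1 * 36 ^ 2 = 663552 := by norm_num
  have h1 : Set.ncard {n : ℕ | 512 * 1 * 36 ^ 2 * M ^ 3 < n ∧
        n ≤ 512 * 1 * 36 ^ 2 * (M + H + 1) ^ 3 ∧ (∃ m, n = Pool.Agent.X220.CN.NN 36 1 t₀ m) ∧ Squarefree n ∧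
        n.primeFactorsList.length ≤ r ∧ (∀ q : ℕ, q.Prime → q ≠ 2 → q ∣ n → (H : ℝ) ^ δ < q) ∧
        Pool.Agent.X220.FP.InBox Q u ρ n} ≤
      count j r ((H : ℝ) ^ δ) (663552 * M ^ 3) (663552 * (M + H + 1) ^ 3) (InBox Q u ρ) := by
    unfold count
    rw [hK]
    refine Set.ncard_le_ncard ?_ ((Set.finite_Iic (663552 * (M + H + 1) ^ 3)).subset fun n hn => hn.2.1)
    rintro n ⟨m1, m2, ⟨m, rfl⟩, m4, m5, m6, m7⟩
    have hj8 := hmod _ (Pool.Agent.X220.CN.NN_mod hp m)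
    refine ⟨m1, m2, hj8, m4, congruent_NN hp m, fun h5 => empty_of ?_, m5, fun q hq hd => m6 q hq ?_ hd, m7⟩
    · rcases h5 with h5 | h5 <;> omega
    · rintro rfl
      omega
  exact_mod_cast h1

end Pool.Agent.Results.MP_05dcdc_nt.FractionalParts
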